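import Pool.Agent.T2H43.QD.Main

/-!
# Two quadrics in `ℙ⁵` over a field of cohomological dimension one: no rational point

The negated form of Q1: there are a field `k` with `cd(k) = 1` and a smooth complete intersection of
two quadrics `X ⊂ ℙ⁵` over `k` with `X(k) = ∅`.

The field `k` has characteristic two (the problem imposes no restriction on the characteristic). It is
a maximal extension of odd degree of `κ(c)`, `κ = 𝔽₂(a₀, a₁, a₂, …)`; so its absolute Galois group is
a pro-2 group, and `cd(k) ≤ 1`, as for all fields of characteristic two with this property. With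
`qᵢ = aᵢ xᵢ² + c xᵢ yᵢ + bᵢ yᵢ²` (`aᵢ`, `bᵢ` six of the variables of `κ`) the variety `X` is given by

  `q₁ + q₂ + q₃ = 0`, `q₂ + c q₃ + x₁² + x₂² + x₃² = 0`.

The first form has no nontrivial zero over `k`: this is reduced to the form `∑ (aᵢ xᵢ² + bᵢ yᵢ²)` over
`κ` by the place `c = 0`. The pencil of the polar forms is degenerate at `0`, `1`, `c` only, and at the
radicals the two forms have no common zero; so `X` is smooth.
-/

set_option autoImplicit false

open MvPolynomial Pool.Agent.Helper346.Cd

namespace Pool.Agent.Results.MP_0f87c6_ag.SmoothWithoutPoint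

/-- The cohomological dimension of the profinite group `G` is at most `m`: `H^i(G, M) = 0` for all
`i > m` and all discrete torsion `G`-modules `M`. (`HSuccVanishes G M q` is `H^(q+1)(G, M) = 0`.) -/
def CdLe (m : ℕ) (G : Type) [Group G] [TopologicalSpace G] : Prop :=
  ∀ (M : Type) [AddCommGroup M] [DistribMulAction G M], IsDiscreteModule G M →
    (∀ x : M, IsOfFinAddOrder x) → ∀ q : ℕ, m ≤ q → HSuccVanishes G M q

/-- `f = g = 0` is a smooth complete intersection of two quadrics in `ℙ⁵`: `f` and `g` are
quadratic forms, and at every geometric common zero the gradients of `f` and `g` are linearly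
independent (no nontrivial combination `s ∇f + t ∇g` vanishes). -/
def IsSmoothIntersection {k : Type} [Field k] (f g : MvPolynomial (Fin 6) k) : Prop :=
  f.IsHomogeneous 2 ∧ g.IsHomogeneous 2 ∧
    ∀ x : Fin 6 → AlgebraicClosure k, x ≠ 0 → aeval x f = 0 → aeval x g = 0 →
      ∀ s t : AlgebraicClosure k,
        (∀ i, s * aeval x (pderiv i f) + t * aeval x (pderiv i g) = 0) → s = 0 ∧ t = 0

/-- There are a field `k` (of characteristic two) with `cd(k) = 1`, that is, `cd(k) ≤ 1` and not
`cd(k) ≤ 0`, all of whose irreducible polynomials have degree a power of two, and a smooth complete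
intersection `f = g = 0` of two quadrics in `ℙ⁵` over `k` without `k`-rational point. -/
theorem result : ∃ (k : Type) (_ : Field k), CharP k 2 ∧
    (CdLe 1 Gal(SeparableClosure k/k) ∧ ¬ CdLe 0 Gal(SeparableClosure k/k)) ∧
    (∀ h : Polynomial k, Irreducible h → ∃ t, h.natDegree = 2 ^ t) ∧
    ∃ f g : MvPolynomial (Fin 6) k, IsSmoothIntersection f g ∧
      ¬ ∃ x : Fin 6 → k, x ≠ 0 ∧ eval x f = 0 ∧ eval x g = 0 :=
  Pool.Agent.T2H43.QD.main

end Pool.Agent.Results.MP_0f87c6_ag.SmoothWithoutPoint
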